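import Pool.Agent.Y140.AW.Stm2
import Pool.Agent.W200.IG.HG

/-! AW2-GSP: specialisation of a Galois extension with values in `κ[t]` (adapted from
`Pool.Agent.W200.IG.HG`). -/

set_option autoImplicit false

namespace Pool.Agent.Y849.AW2

open Polynomial Pool.Agent.W200.IG
open scoped Pointwise

/-- Specialisations to `K` in the class `Good` keeping a finite family of monic polynomials without
roots. -/
def SPG (K A : Type) [Field K] [CommRing A] [Algebra K A] (Good : (A →ₐ[K] K) → Prop) : Prop :=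
  ∀ (ι : Type) [Finite ι] (f : ι → A[X]), (∀ i, (f i).Monic) → (∀ i, RSep (f i)) →
    (∀ i (x : A), (f i).eval x ≠ 0) → ∀ D : A, D ≠ 0 →
    ∃ φ : A →ₐ[K] K, Good φ ∧ φ D ≠ 0 ∧ ∀ i (x : K), ((f i).map (φ : A →+* K)).eval x ≠ 0

section abs

variable {K A C G : Type} [Field K] [CommRing A] [CommRing C] [Algebra A C] [Algebra K A]
  [IsDomain A]
  [IsDomain C] [FaithfulSMul A C] [Group G] [Finite G] [MulSemiringAction G C]
  [Algebra.IsInvariant A C G] [SMulCommClass G A C] [FaithfulSMul G C]

theorem spec_aux (Good : (A →ₐ[K] K) → Prop)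
    (hθ : ∀ Δ : Subgroup G, Δ ≠ ⊤ →
      ∃ (θ : C) (c : A[X]), (∀ g ∈ Δ, g • θ = θ) ∧ c.Monic ∧ RSep c ∧ (∀ a : A, c.eval a ≠ 0) ∧
        (c.map (algebraMap A C)).eval θ = 0)
    (hS : SPG K A Good) :
    ∃ φ : A →ₐ[K] K, Good φ ∧ ∃ (L : Type) (_ : Field L) (_ : Algebra K L)
      (_ : FiniteDimensional K L) (_ : IsGalois K L) (γ : G ≃* (L ≃ₐ[K] L)) (π : C →+* L),
      (∀ a : A, π (algebraMap A C a) = algebraMap K L (φ a)) ∧
      ∀ (g : G) (b : C), π (g • b) = γ g (π b) := by
  classical
  cases nonempty_fintype G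
  have hinj : Function.Injective (algebraMap A C) := FaithfulSMul.algebraMap_injective A C
  -- the polynomials
  have h1 : ∀ Δ : {Δ : Subgroup G // Δ ≠ ⊤}, ∃ (θ : C) (c : A[X]) (U V : A[X]) (r : A),
      (∀ g ∈ Δ.1, g • θ = θ) ∧ c.Monic ∧ (∀ a : A, c.eval a ≠ 0) ∧
      (c.map (algebraMap A C)).eval θ = 0 ∧ r ≠ 0 ∧
      U * c + V * derivative c = Polynomial.C r := by
    intro Δ
    obtain ⟨θ, c, h1, h2, ⟨U, V, r, h3, h3'⟩, h4, h5⟩ := hθ Δ.1 Δ.2
    exact ⟨θ, c, U, V, r, h1, h2, h4, h5, h3, h3'⟩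
  choose θ c U V r hθ1 hcm hcroot hcθ hr hUV using h1
  let _ : Fintype {Δ : Subgroup G // Δ ≠ ⊤} := Fintype.ofFinite _
  -- the discriminant like element
  have h2 : ∀ g : G, ∃ x : C, g ≠ 1 → g • x - x ≠ 0 := by
    intro g
    by_cases hg : g = 1
    · exact ⟨0, fun h => absurd hg h⟩
    · by_contra hcon
      push Not at hcon
      apply hg
      apply FaithfulSMul.eq_of_smul_eq_smul (α := C)
      intro x
      rw [one_smul]
      exact sub_eq_zero.1 (hcon x).2
  choose x hx using h2
  let D' : C := ∏ g ∈ Finset.univ.erase (1 : G), (g • x g - x g)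
  have hD' : D' ≠ 0 := Finset.prod_ne_zero_iff.2 fun g hg => hx g (Finset.ne_of_mem_erase hg)
  have h3 : ∃ D : A, algebraMap A C D = ∏ h : G, h • D' := by
    apply Algebra.IsInvariant.isInvariant (G := G)
    intro g
    rw [Finset.smul_prod']
    simp only [smul_smul]
    exact Fintype.prod_bijective (fun h => g * h) (Group.mulLeft_bijective g) _ _ fun _ => rfl
  obtain ⟨D, hD⟩ := h3
  have hD0 : D ≠ 0 := by
    rintro rfl
    rw [map_zero] at hD
    have := Finset.prod_ne_zero_iff.2 (fun (h : G) (_ : h ∈ Finset.univ) =>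
      (smul_ne_zero_iff_ne h).2 hD')
    exact this hD.symm
  have hDr0 : D * ∏ Δ, r Δ ≠ 0 :=
    mul_ne_zero hD0 (Finset.prod_ne_zero_iff.2 fun Δ _ => hr Δ)
  obtain ⟨φ, hgood, hφDr, hφroot⟩ := hS {Δ : Subgroup G // Δ ≠ ⊤} c hcm
    (fun Δ => ⟨U Δ, V Δ, r Δ, hr Δ, hUV Δ⟩) hcroot _ hDr0
  rw [map_mul, map_prod] at hφDr
  have hφD : φ D ≠ 0 := left_ne_zero_of_mul hφDr
  have hφr : ∀ Δ, φ (r Δ) ≠ 0 := fun Δ =>
    (Finset.prod_ne_zero_iff.1 (right_ne_zero_of_mul hφDr)) Δ (Finset.mem_univ Δ)
  have hφsurj : Function.Surjective (φ : A →+* K) := by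
    intro q
    exact ⟨algebraMap K A q, φ.commutes q⟩
  let P : Ideal A := RingHom.ker (φ : A →+* K)
  have hPmax : P.IsMaximal := RingHom.ker_isMaximal_of_surjective (φ : A →+* K) hφsurj
  have hintegral : Algebra.IsIntegral A C := Algebra.IsInvariant.isIntegral A C G
  obtain ⟨Q, hQmax, hQP⟩ := Ideal.exists_maximal_ideal_liesOver_of_isIntegral (S := C) P
  let _ : Field (A ⧸ P) := Ideal.Quotient.field P
  let _ : Field (C ⧸ Q) := Ideal.Quotient.field Q
  let e : K ≃+* A ⧸ P := (RingHom.quotientKerEquivOfSurjective hφsurj).symm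
  have he : ∀ a : A, e (φ a) = Ideal.Quotient.mk P a := by
    intro a
    rw [RingEquiv.symm_apply_eq]
    rfl
  have hnormal : Normal (A ⧸ P) (C ⧸ Q) := Ideal.Quotient.normal G P Q
  have hsurj := Ideal.Quotient.stabilizerHom_surjective G P Q
  have hφunder : ∀ a : A, algebraMap A C a ∈ Q ↔ φ a = 0 := by
    intro a
    have h4 : P = Q.under A := hQP.over
    have h5 : φ a = 0 ↔ a ∈ P := Iff.rfl
    rw [h5, h4]
    rfl
  let Es := separableClosure (A ⧸ P) (C ⧸ Q)
  have hbij := restrict_sep_bij (A ⧸ P) (C ⧸ Q)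
  -- the stabilizer is everything
  have hstab : MulAction.stabilizer G Q = ⊤ := by
    by_contra hne
    let Δ : {Δ : Subgroup G // Δ ≠ ⊤} := ⟨MulAction.stabilizer G Q, hne⟩
    have hcQ : ((c Δ).map (Ideal.Quotient.mk P)).Separable := by
      refine sep_of_eq (hUV Δ) (Ideal.Quotient.mk P) ?_
      rw [← he]
      exact (_root_.map_ne_zero e).2 (hφr Δ)
    have hcQθ : aeval (Ideal.Quotient.mk Q (θ Δ)) ((c Δ).map (Ideal.Quotient.mk P)) = 0 := by
      have h6 := congrArg (Ideal.Quotient.mk Q) (hcθ Δ)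
      rw [map_zero, ← eval_map_apply, Polynomial.map_map] at h6
      rw [aeval_def, eval₂_eq_eval_map, Polynomial.map_map]
      exact h6
    have hsep : IsSeparable (A ⧸ P) (Ideal.Quotient.mk Q (θ Δ)) :=
      hcQ.of_dvd (minpoly.dvd _ _ hcQθ)
    have hmem : Ideal.Quotient.mk Q (θ Δ) ∈ Es := mem_separableClosure_iff.2 hsep
    have h5 : (⟨Ideal.Quotient.mk Q (θ Δ), hmem⟩ : Es) ∈ Set.range (algebraMap (A ⧸ P) Es) := by
      rw [InfiniteGalois.mem_range_algebraMap_iff_fixed]
      intro τ'
      obtain ⟨τ, rfl⟩ := hbij.2 τ'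
      obtain ⟨g, rfl⟩ := hsurj τ
      apply Subtype.ext
      have h6 := AlgEquiv.restrictNormal_commutes (Ideal.Quotient.stabilizerHom Q P G g) Es
        (⟨Ideal.Quotient.mk Q (θ Δ), hmem⟩ : Es)
      refine h6.trans ?_
      change Ideal.Quotient.mk Q ((g : G) • θ Δ) = _
      rw [hθ1 Δ g g.2]
    obtain ⟨y, hy⟩ := h5
    obtain ⟨q, rfl⟩ := e.surjective y
    obtain ⟨a, rfl⟩ := hφsurj q
    have h6 : Ideal.Quotient.mk Q (algebraMap A C a) = Ideal.Quotient.mk Q (θ Δ) := by
      have h7 := congrArg (Subtype.val) hy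
      have h8 : e ((φ : A →+* K) a) = Ideal.Quotient.mk P a := he a
      rw [h8] at h7
      exact h7
    -- evaluate `c`
    have h7 : algebraMap A C ((c Δ).eval a) ∈ Q := by
      rw [← Ideal.Quotient.eq_zero_iff_mem, ← eval_map_apply, ← eval_map_apply, h6,
        eval_map_apply, hcθ, map_zero]
    rw [hφunder] at h7
    apply hφroot Δ (φ a)
    have h8 : ((c Δ).map (φ : A →+* K)).eval ((φ : A →+* K) a) = (φ : A →+* K) ((c Δ).eval a) :=
      eval_map_apply ..
    exact h8.trans h7
  -- injectivity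
  have hinj' : Function.Injective (Ideal.Quotient.stabilizerHom Q P G) := by
    rw [injective_iff_map_eq_one]
    intro g hg
    by_contra hne
    have hne' : (g : G) ≠ 1 := fun h => hne (Subtype.ext h)
    have h5 : (g : G) • x g - x g ∈ Q := by
      rw [← Ideal.Quotient.eq]
      have h6 := congrArg (fun τ : (C ⧸ Q) ≃ₐ[A ⧸ P] (C ⧸ Q) => τ (Ideal.Quotient.mk Q (x g))) hg
      exact h6
    have h6 : D' ∈ Q := by
      change (∏ g ∈ Finset.univ.erase (1 : G), (g • x g - x g)) ∈ Q
      rw [← Finset.mul_prod_erase _ _ (Finset.mem_erase.2 ⟨hne', Finset.mem_univ _⟩)]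
      exact Q.mul_mem_right _ h5
    have h7 : algebraMap A C D ∈ Q := by
      rw [hD, ← Finset.mul_prod_erase _ _ (Finset.mem_univ (1 : G)), one_smul]
      exact Q.mul_mem_right _ h6
    exact hφD ((hφunder D).1 h7)
  let E1 : MulAction.stabilizer G Q ≃* ((C ⧸ Q) ≃ₐ[A ⧸ P] (C ⧸ Q)) :=
    MulEquiv.ofBijective _ ⟨hinj', hsurj⟩
  let E0 : G ≃* MulAction.stabilizer G Q :=
    Subgroup.topEquiv.symm.trans (MulEquiv.subgroupCongr hstab.symm)
  let algQ : Algebra K (C ⧸ Q) :=
    ((algebraMap (A ⧸ P) (C ⧸ Q)).comp (e : K →+* A ⧸ P)).toAlgebra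
  have halg : ∀ q : K, algebraMap K (C ⧸ Q) q = algebraMap (A ⧸ P) (C ⧸ Q) (e q) := fun q => rfl
  let E2 : ((C ⧸ Q) ≃ₐ[A ⧸ P] (C ⧸ Q)) ≃* ((C ⧸ Q) ≃ₐ[K] (C ⧸ Q)) :=
      { toFun := fun τ => AlgEquiv.ofRingEquiv (f := τ.toRingEquiv) (fun q => by
          rw [halg]; exact τ.commutes _)
        invFun := fun τ => AlgEquiv.ofRingEquiv (f := τ.toRingEquiv) (fun y => by
          obtain ⟨q, rfl⟩ := e.surjective y
          rw [← halg]; exact τ.commutes _)
        left_inv := fun τ => by ext; rfl
        right_inv := fun τ => by ext; rfl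
        map_mul' := fun τ τ' => by ext; rfl }
  let EE : G ≃* ((C ⧸ Q) ≃ₐ[K] (C ⧸ Q)) := E0.trans (E1.trans E2)
  have hEE : ∀ (g : G) (b : C), EE g (Ideal.Quotient.mk Q b) = Ideal.Quotient.mk Q (g • b) :=
    fun g b => rfl
  have hmk : ∀ a : A, Ideal.Quotient.mk Q (algebraMap A C a) = algebraMap K (C ⧸ Q) (φ a) := by
    intro a
    rw [halg, he]
    rfl
  -- the invariants
  have hfix : ∀ y : C ⧸ Q, (∀ g : G, EE g y = y) → ∃ q : K, algebraMap K (C ⧸ Q) q = y := by
    intro y hy
    have hex : ∃ δ : C ⧸ Q, ∑ g : G, EE g δ ≠ 0 := by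
      by_contra hcon
      push Not at hcon
      have hli := (linearIndependent_monoidHom (C ⧸ Q) (C ⧸ Q)).comp
        (fun g : G => (((EE g : (C ⧸ Q) ≃ₐ[K] (C ⧸ Q)) : (C ⧸ Q) →+* (C ⧸ Q)) :
          (C ⧸ Q) →* (C ⧸ Q))) (by
          intro g g' hgg
          apply EE.injective
          apply AlgEquiv.ext
          intro z
          exact DFunLike.congr_fun hgg z)
      have h1 := Fintype.linearIndependent_iff.mp hli (fun _ => 1) (by
        funext δ
        have h2 := hcon δ
        simp only [Function.comp_apply, one_smul, Finset.sum_apply, Pi.zero_apply]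
        exact h2) 1
      exact one_ne_zero h1
    obtain ⟨δ, hδ⟩ := hex
    obtain ⟨d, rfl⟩ := Ideal.Quotient.mk_surjective δ
    obtain ⟨b, rfl⟩ := Ideal.Quotient.mk_surjective y
    have hinvs : ∀ z : C, ∃ a : A, algebraMap A C a = ∑ g : G, g • z := by
      intro z
      apply Algebra.IsInvariant.isInvariant (G := G)
      intro g
      rw [Finset.smul_sum]
      simp only [smul_smul]
      exact Fintype.sum_bijective (fun h => g * h) (Group.mulLeft_bijective g) _ _ fun _ => rfl
    obtain ⟨t, ht⟩ := hinvs d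
    obtain ⟨c', hc'⟩ := hinvs (d * b)
    have ht' : algebraMap K (C ⧸ Q) (φ t) = ∑ g : G, EE g (Ideal.Quotient.mk Q d) := by
      rw [← hmk, ht, map_sum]
      rfl
    have hc'' : algebraMap K (C ⧸ Q) (φ c') =
        algebraMap K (C ⧸ Q) (φ t) * Ideal.Quotient.mk Q b := by
      rw [ht', ← hmk, hc', map_sum, Finset.sum_mul]
      refine Finset.sum_congr rfl fun g _ => ?_
      rw [← hEE, map_mul, map_mul, hy]
    rw [← ht'] at hδ
    refine ⟨φ c' / φ t, ?_⟩
    rw [map_div₀, hc'', mul_div_cancel_left₀ _ hδ]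
  have hgg : IsGaloisGroup ((C ⧸ Q) ≃ₐ[K] (C ⧸ Q)) K (C ⧸ Q) :=
    { faithful := inferInstance
      commutes := inferInstance
      isInvariant := ⟨fun y hy => hfix y fun g => hy (EE g)⟩ }
  have hfinG : Finite ((C ⧸ Q) ≃ₐ[K] (C ⧸ Q)) := Finite.of_equiv _ EE.toEquiv
  exact ⟨φ, hgood, C ⧸ Q, inferInstance, algQ,
    IsGaloisGroup.finiteDimensional ((C ⧸ Q) ≃ₐ[K] (C ⧸ Q)) K (C ⧸ Q),
    IsGaloisGroup.isGalois ((C ⧸ Q) ≃ₐ[K] (C ⧸ Q)) K (C ⧸ Q), EE, Ideal.Quotient.mk Q,
    hmk, fun g b => rfl⟩

end abs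

section gal

variable {K A : Type} [Field K] [CommRing A] [IsDomain A] [IsIntegrallyClosed A] [Algebra K A]
  {F N : Type} [Field F] [Algebra A F] [IsFractionRing A F] [Field N] [Algebra F N] [Algebra A N]
  [tower : IsScalarTower A F N] [FiniteDimensional F N] [IsGalois F N]

/-- Specialisation of a Galois extension of the fraction field of `A` to `K`. -/
theorem galois_spec (Good : (A →ₐ[K] K) → Prop) (hS : SPG K A Good) :
    ∃ φ : A →ₐ[K] K, Good φ ∧ ∃ (L : Type) (_ : Field L) (_ : Algebra K L)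
      (_ : FiniteDimensional K L) (_ : IsGalois K L) (γ : (N ≃ₐ[F] N) ≃* (L ≃ₐ[K] L))
      (π : integralClosure A N →+* L),
      (∀ a : A, π (algebraMap A (integralClosure A N) a) = algebraMap K L (φ a)) ∧
      ∀ (σ : N ≃ₐ[F] N) (b b' : integralClosure A N), (b' : N) = σ (b : N) →
        π b' = γ σ (π b) := by
  classical
  have hfr : IsFractionRing (integralClosure A N) N :=
    integralClosure.isFractionRing_of_finite_extension F N
  have hfin : Finite ((integralClosure A N) ≃ₐ[A] (integralClosure A N)) :=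
    Finite.of_equiv _ (galRestrict A F N (integralClosure A N)).toEquiv
  have hinv : Algebra.IsInvariant A (integralClosure A N)
      ((integralClosure A N) ≃ₐ[A] (integralClosure A N)) :=
    Algebra.isInvariant_of_isGalois' A F N (integralClosure A N)
  have hAN : Function.Injective (algebraMap A N) := by
    rw [IsScalarTower.algebraMap_eq A F N]
    exact (algebraMap F N).injective.comp (IsFractionRing.injective A F)
  have hAC : Function.Injective (algebraMap A (integralClosure A N)) := by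
    intro a b hab
    apply hAN
    exact congrArg (Subtype.val) hab
  have : FaithfulSMul A (integralClosure A N) :=
    (faithfulSMul_iff_algebraMap_injective A _).2 hAC
  obtain ⟨φ, hgood, L, i1, i2, i3, i4, γ, π, h1, h2⟩ := spec_aux (K := K) (A := A)
    (C := integralClosure A N)
    (G := (integralClosure A N) ≃ₐ[A] (integralClosure A N)) Good (by
      intro Δ hΔ
      let ρ := galRestrict A F N (integralClosure A N)
      let Δ' : Subgroup (N ≃ₐ[F] N) := Δ.comap ρ.toMonoidHom
      have hΔ' : Δ' ≠ ⊤ := by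
        intro h
        apply hΔ
        rw [eq_top_iff]
        intro g _
        obtain ⟨τ, rfl⟩ := ρ.surjective g
        have : τ ∈ Δ' := by rw [h]; trivial
        exact this
      have hfix : IntermediateField.fixedField Δ' ≠ ⊥ := by
        intro h
        apply hΔ'
        rw [← IntermediateField.fixingSubgroup_fixedField Δ', h,
          IntermediateField.fixingSubgroup_bot]
      have hex : ∃ x ∈ IntermediateField.fixedField Δ', x ∉ (⊥ : IntermediateField F N) := by
        by_contra hcon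
        push Not at hcon
        exact hfix (le_antisymm hcon bot_le)
      obtain ⟨x, hx, hx'⟩ := hex
      have hxalg : IsAlgebraic A x := by
        rw [IsFractionRing.isAlgebraic_iff A F N]
        exact Algebra.IsAlgebraic.isAlgebraic x
      obtain ⟨a, ha, hint⟩ := hxalg.exists_integral_multiple
      have hmin := minpoly.isIntegrallyClosed_eq_field_fractions F N hint
      rw [Algebra.algebraMap_self_apply] at hmin
      have ha' : algebraMap A F a ≠ 0 := by
        intro h
        apply ha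
        exact IsFractionRing.injective A F (by rw [h, map_zero])
      have ha'' : algebraMap A N a ≠ 0 := by
        rw [IsScalarTower.algebraMap_apply A F N]
        exact (_root_.map_ne_zero (algebraMap F N)).2 ha'
      refine ⟨⟨a • x, hint⟩, minpoly A (a • x), ?_, minpoly.monic hint, ?_, ?_, ?_⟩
      · intro g hg
        obtain ⟨τ, rfl⟩ := ρ.surjective g
        apply Subtype.ext
        have h1 : algebraMap (integralClosure A N) N (galRestrict A F N (integralClosure A N) τ ⟨a • x, hint⟩) =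
            τ (algebraMap (integralClosure A N) N ⟨a • x, hint⟩) :=
          algebraMap_galRestrict_apply A τ _
        have h2 : τ x = x := hx ⟨τ, hg⟩
        have h3 : τ (a • x) = a • x := by
          rw [Algebra.smul_def, map_mul, h2, IsScalarTower.algebraMap_apply A F N,
            AlgEquiv.commutes]
        exact h1.trans h3
      · apply rsep_of_sep (algebraMap A F) (IsFractionRing.injective A F)
        rw [← hmin]
        exact IsGalois.separable F (a • x)
      · intro b hb
        apply hx'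
        have h1 : (minpoly F (a • x)).IsRoot (algebraMap A F b) := by
          rw [hmin, IsRoot.def, eval_map_apply, hb, map_zero]
        have hintF : IsIntegral F (a • x) := Algebra.IsIntegral.isIntegral _
        have h2 := degree_eq_one_of_irreducible_of_root (minpoly.irreducible hintF) h1
        obtain ⟨y, hy⟩ := minpoly.mem_range_of_degree_eq_one F (a • x) h2
        rw [IntermediateField.mem_bot]
        refine ⟨y / algebraMap A F a, ?_⟩
        rw [map_div₀, ← IsScalarTower.algebraMap_apply]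
        have hy' : algebraMap F N y = a • x := hy
        rw [hy', Algebra.smul_def, mul_div_cancel_left₀ _ ha'']
      · have hinjCN : Function.Injective (algebraMap (integralClosure A N) N) :=
          Subtype.val_injective
        apply hinjCN
        rw [map_zero, ← eval_map_apply, Polynomial.map_map]
        have h1 := minpoly.aeval A (a • x)
        rw [aeval_def, eval₂_eq_eval_map] at h1
        exact h1) hS
  refine ⟨φ, hgood, L, i1, i2, i3, i4, (galRestrict A F N (integralClosure A N)).trans γ, π, h1,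
    fun σ b b' hb => ?_⟩
  have h3 : b' = galRestrict A F N (integralClosure A N) σ b := by
    apply Subtype.ext
    have h4 : algebraMap (integralClosure A N) N (galRestrict A F N (integralClosure A N) σ b) =
        σ (algebraMap (integralClosure A N) N b) := algebraMap_galRestrict_apply A σ b
    exact hb.trans h4.symm
  rw [h3]
  exact h2 _ b

end gal

theorem t_gsp (h : Pool.Agent.Y140.AW.St_hit) : Pool.Agent.Y140.AW.St_gsp := by
  intro κ ι F M _ _ _ _ _ _ _ _ _ _ _ _
  obtain ⟨φ, ⟨a, ha⟩, L, i1, i2, i3, i4, γ, π, h1, h2⟩ := galois_spec (K := RatFunc κ)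
    (A := MvPolynomial ι (RatFunc κ)) (F := F) (N := M)
    (fun φ => ∃ a : ι → κ[X], ∀ c, φ c =
      MvPolynomial.eval (fun i => algebraMap κ[X] (RatFunc κ) (a i)) c) (by
      intro J _ f hf hs hr D hD
      obtain ⟨a, h1, h2⟩ := h κ ι J f hf hs hr D hD
      have hc : ∀ c, MvPolynomial.aeval (R := RatFunc κ)
          (fun i => algebraMap κ[X] (RatFunc κ) (a i)) c =
          MvPolynomial.eval (fun i => algebraMap κ[X] (RatFunc κ) (a i)) c := fun c =>
        DFunLike.congr_fun (MvPolynomial.coe_aeval_eq_eval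
          (fun i => algebraMap κ[X] (RatFunc κ) (a i))) c
      refine ⟨MvPolynomial.aeval (fun i => algebraMap κ[X] (RatFunc κ) (a i)), ⟨a, hc⟩, ?_, ?_⟩
      · rw [hc]
        exact h1
      · intro j x
        have h3 : ((MvPolynomial.aeval (R := RatFunc κ)
            (fun i => algebraMap κ[X] (RatFunc κ) (a i)) :
            MvPolynomial ι (RatFunc κ) →ₐ[RatFunc κ] RatFunc κ) :
            MvPolynomial ι (RatFunc κ) →+* RatFunc κ) =
            MvPolynomial.eval (fun i => algebraMap κ[X] (RatFunc κ) (a i)) :=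
          RingHom.ext hc
        rw [h3]
        exact h2 j x)
  exact ⟨a, L, i1, i2, i3, i4, γ, π, fun c => by rw [h1, ha], h2⟩

end Pool.Agent.Y849.AW2
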